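import Pool.Agent.Zk69.DH.Low

set_option autoImplicit false

/-!
# The number of zeros off the line and the critical points of the derivatives: statements of the parts

`XX z = 8 ξ(1/2 + z)`, `f_n = XX^(n)`, `gn n u = I^n f_n(I u)` is real.  `NT n T`: the number of zeros of `f_n` with ordinate in
`(0, T]`; `ZT n T`: those on the line; `VT n T`: the number of the critical points of `gn n` in `(0, T]` in the sense of Fourier.
Goal: `NT 0 T - ZT 0 T = 2 ∑_{j<n} VT j T + O(e^(-κ n) T log T + (log T)^2)` for `n ≤ log T`, `κ < 4`.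
-/

namespace Pool.Agent.Zk2.FP

open Complex
open Pool.Agent.H24R2.JP (XX)
open Pool.Agent.Zk69.DH (zs gn)

noncomputable section

/-- the multiplicity -/
def mu (n : ℕ) (s : ℂ) : ℕ := analyticOrderNatAt (iteratedDeriv n XX) s

/-- the number of zeros of `XX^(n)` with ordinate in `(0, T]`, with multiplicity -/
def NT (n : ℕ) (T : ℝ) : ℕ := ∑ᶠ s ∈ zs n T, mu n s

/-- the number of those on the line -/
def ZT (n : ℕ) (T : ℝ) : ℕ := ∑ᶠ s ∈ {s : ℂ | s ∈ zs n T ∧ s.re = 0}, mu n s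

open Classical in
/-- the weight of the critical point `u` -/
def vw (n : ℕ) (u : ℝ) : ℕ := mu (n + 1) (I * u) / 2 + if IsLocalMin (fun x : ℝ => |gn n x|) u then 1 else 0

/-- the number of critical points of `gn n` in `(0, T]` in the sense of Fourier -/
def VT (n : ℕ) (T : ℝ) : ℕ := ∑ᶠ u ∈ {u : ℝ | 0 < u ∧ u ≤ T ∧ gn n u ≠ 0 ∧ gn (n + 1) u = 0}, vw n u

/-- PART ROL: Rolle's theorem with multiplicities. -/
def S_ROL : Prop := ∀ (n : ℕ) (T : ℝ), |((ZT (n + 1) T : ℤ) - ZT n T - 2 * VT n T)| ≤ 1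

/-- PART POS: `Re f_(n+1) / f_n > 0` for `Re z ≥ 1` (limit of polynomials with all zeros in the strip, as in `H24R2/DZ/Strip.lean`;
strict by the open mapping theorem as in `Zk2/XP/Pos.lean`). -/
def S_POS : Prop := ∀ (n : ℕ) (z : ℂ), 1 ≤ z.re → iteratedDeriv n XX z ≠ 0 ∧
  0 < (iteratedDeriv (n + 1) XX z / iteratedDeriv n XX z).re

/-- PART CEN: on the real axis `f_n` vanishes at most at `0`, with multiplicity one (all Taylor coefficients of `XX` of even order
are positive, those of odd order vanish). -/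
def S_CEN : Prop := ∀ (n : ℕ) (z : ℂ), z.im = 0 → iteratedDeriv n XX z = 0 → z = 0 ∧ mu n z = 1

/-- PART GH: good heights for `f_0` and `f_n` at once (model `good_height` in `H370R2/Local.lean`; the growth of `f_n`, `n ≤ 60 log t`,
is in the proof of `sunit_of` in `W125/SD/SUnitA.lean`). -/
def S_GH : Prop := ∃ C T0 : ℝ, 0 < C ∧ 2 ≤ T0 ∧ ∀ (T : ℝ) (n : ℕ), T0 ≤ T → (n : ℝ) ≤ Real.log T →
  ∃ V : ℝ, T ≤ V ∧ V ≤ T + 1 ∧ ∀ x : ℝ, |x| ≤ 1 → ∀ m : ℕ, m = 0 ∨ m = n →
    iteratedDeriv m XX (⟨x, V⟩ : ℂ) ≠ 0 ∧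
    ‖iteratedDeriv (m + 1) XX (⟨x, V⟩ : ℂ) / iteratedDeriv m XX (⟨x, V⟩ : ℂ)‖ ≤ C * Real.log T ^ 2

/-- PART CNT (from POS, CEN, GH and `SUnit`): the zeros of `f_n` and of `f_0`. Proof: `rect_residue` (H370R2/Rect.lean) for `f_n` and
for `f_0` on `[-1, 1] x [-V, V]`, `V ∈ [T, T + 1]` a good height; the horizontal sides are `O((log T)^2)`; by the symmetries
`f_n(-z) = ± f_n(z)`, `f_n(conj z) = conj f_n(z)` the vertical sides give `2 ∫_{-V}^{V} Re (f_n'/f_n)(1 + i y) dy`, and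
`f_(j+1)'/f_(j+1) - f_j'/f_j = g_j'/g_j` with `g_j = f_(j+1)/f_j` of positive real part, so each step changes the integral by the
difference of two principal arguments, at most `π`; the count is `2 N_n(V)` plus at most one; finally `SUnit` for `V - T ≤ 1`. -/
def S_CNT : Prop := ∃ C T0 : ℝ, 0 < C ∧ 2 ≤ T0 ∧ ∀ (T : ℝ) (n : ℕ), T0 ≤ T → (n : ℝ) ≤ Real.log T →
  |(NT n T : ℝ) - NT 0 T| ≤ C * Real.log T ^ 2

end

end Pool.Agent.Zk2.FP
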