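import Mathlib

set_option autoImplicit false

/-!
# Critical points of a real function: local minima and maxima of the absolute value
-/

namespace Pool.Agent.Zk2.FP

open Filter Topology Set

noncomputable section

lemma sgn : ∀ (k : ℕ) (g : ℕ → ℝ → ℝ) (u : ℝ), (∀ i x, HasDerivAt (g i) (g (i + 1) x) x) →
    (∀ i < k, g i u = 0) → 0 < g k u →
    ∃ δ : ℝ, 0 < δ ∧ (∀ x, u < x → x < u + δ → 0 < g 0 x) ∧
      (∀ x, u - δ < x → x < u → 0 < (-1 : ℝ) ^ k * g 0 x)
  | 0, g, u, hd, _, h => by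
    have hc : ContinuousAt (g 0) u := (hd 0 u).continuousAt
    have h1 : ∀ᶠ x in 𝓝 u, 0 < g 0 x := hc.eventually (lt_mem_nhds h)
    rw [Metric.eventually_nhds_iff] at h1
    obtain ⟨δ, hδ, h2⟩ := h1
    refine ⟨δ, hδ, fun x h3 h4 => h2 ?_, fun x h3 h4 => ?_⟩
    · rw [Real.dist_eq, abs_lt]; constructor <;> linarith
    · rw [pow_zero, one_mul]
      apply h2
      rw [Real.dist_eq, abs_lt]; constructor <;> linarith
  | k + 1, g, u, hd, h0, h => by
    obtain ⟨δ, hδ, h1, h2⟩ := sgn k (fun i => g (i + 1)) u (fun i x => hd (i + 1) x)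
      (fun i hi => h0 (i + 1) (by omega)) h
    have hu : g 0 u = 0 := h0 0 (by omega)
    refine ⟨δ, hδ, fun x h3 h4 => ?_, fun x h3 h4 => ?_⟩
    · obtain ⟨c, hc, hc2⟩ := exists_hasDerivAt_eq_slope (g 0) (g 1) h3
        (fun y _ => (hd 0 y).continuousAt.continuousWithinAt) (fun y _ => hd 0 y)
      have h5 : 0 < g 1 c := h1 c hc.1 (hc.2.trans h4)
      rw [hu, sub_zero] at hc2
      have h6 : 0 < x - u := by linarith
      rw [eq_div_iff h6.ne'] at hc2
      rw [← hc2]
      exact mul_pos h5 h6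
    · obtain ⟨c, hc, hc2⟩ := exists_hasDerivAt_eq_slope (g 0) (g 1) h4
        (fun y _ => (hd 0 y).continuousAt.continuousWithinAt) (fun y _ => hd 0 y)
      have h5 : 0 < (-1 : ℝ) ^ k * g 1 c := h2 c (h3.trans hc.1) hc.2
      rw [hu, zero_sub] at hc2
      have h6 : 0 < u - x := by linarith
      rw [eq_div_iff h6.ne'] at hc2
      have h7 : (-1 : ℝ) ^ (k + 1) * g 0 x = ((-1 : ℝ) ^ k * g 1 c) * (u - x) := by
        rw [mul_assoc, hc2, pow_succ]
        ring
      rw [h7]
      exact mul_pos h5 h6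

/-- comparison near a critical point of a function with positive leading coefficient -/
lemma cmp (k : ℕ) (g : ℕ → ℝ → ℝ) (u : ℝ) (hd : ∀ i x, HasDerivAt (g i) (g (i + 1) x) x)
    (h0 : ∀ i < k, g (1 + i) u = 0) (h : 0 < g (1 + k) u) :
    ∃ δ : ℝ, 0 < δ ∧ (∀ x, u < x → x < u + δ → g 0 u < g 0 x) ∧
      (∀ x, u - δ < x → x < u → 0 < (-1 : ℝ) ^ (k + 1) * (g 0 x - g 0 u)) := by
  have := sgn (k + 1) (fun i x => if i = 0 then g 0 x - g 0 u else g i x) u ?_ ?_ ?_
  · obtain ⟨δ, hδ, h1, h2⟩ := this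
    refine ⟨δ, hδ, fun x h3 h4 => ?_, fun x h3 h4 => ?_⟩
    · have := h1 x h3 h4
      simp only [if_true] at this
      linarith
    · have := h2 x h3 h4
      simpa only [if_true] using this
  · intro i x
    rcases Nat.eq_zero_or_pos i with rfl | hi
    · simp only [if_true, zero_add, one_ne_zero, if_false]
      exact (hd 0 x).sub_const _
    · have h1 : i ≠ 0 := by omega
      have h2 : i + 1 ≠ 0 := by omega
      simp only [h1, h2, if_false]
      exact hd i x
  · intro i hi
    rcases Nat.eq_zero_or_pos i with rfl | hi0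
    · simp
    · have h1 : i ≠ 0 := by omega
      simp only [h1, if_false]
      have := h0 (i - 1) (by omega)
      rwa [show 1 + (i - 1) = i by omega] at this
  · have h1 : k + 1 ≠ 0 := by omega
    simp only [h1, if_false]
    rwa [add_comm] at h

lemma not_min {F : ℝ → ℝ} {u δ : ℝ} (hδ : 0 < δ) (h : (∀ x, u < x → x < u + δ → F x < F u) ∨
    (∀ x, u - δ < x → x < u → F x < F u)) : ¬ IsLocalMin F u := by
  intro hm
  have h1 : ∀ᶠ x in 𝓝 u, F u ≤ F x := hm
  rw [Metric.eventually_nhds_iff] at h1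
  obtain ⟨ε, hε, h2⟩ := h1
  rcases h with h | h
  · have h3 := h (u + min δ ε / 2) (by have : 0 < min δ ε := lt_min hδ hε; linarith)
      (by have : min δ ε ≤ δ := min_le_left _ _
          have : 0 < min δ ε := lt_min hδ hε
          linarith)
    have h4 := h2 (y := u + min δ ε / 2) (by
      rw [Real.dist_eq, add_sub_cancel_left, abs_of_pos (by have : 0 < min δ ε := lt_min hδ hε; linarith)]
      have : min δ ε ≤ ε := min_le_right _ _
      linarith)
    linarith
  · have h3 := h (u - min δ ε / 2) (by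
        have : min δ ε ≤ δ := min_le_left _ _
        have : 0 < min δ ε := lt_min hδ hε
        linarith)
      (by have : 0 < min δ ε := lt_min hδ hε; linarith)
    have h4 := h2 (y := u - min δ ε / 2) (by
      rw [Real.dist_eq, show u - min δ ε / 2 - u = -(min δ ε / 2) by ring, abs_neg,
        abs_of_pos (by have : 0 < min δ ε := lt_min hδ hε; linarith)]
      have : min δ ε ≤ ε := min_le_right _ _
      linarith)
    linarith

lemma is_min {F : ℝ → ℝ} {u δ : ℝ} (hδ : 0 < δ) (h1 : ∀ x, u < x → x < u + δ → F u < F x)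
    (h2 : ∀ x, u - δ < x → x < u → F u < F x) : IsLocalMin F u := by
  have : ∀ᶠ x in 𝓝 u, F u ≤ F x := by
    rw [Metric.eventually_nhds_iff]
    refine ⟨δ, hδ, fun x hx => ?_⟩
    rw [Real.dist_eq, abs_lt] at hx
    rcases lt_trichotomy x u with h | h | h
    · exact (h2 x (by linarith) h).le
    · rw [h]
    · exact (h1 x h (by linarith)).le
  exact this

lemma max_neg {F : ℝ → ℝ} {u : ℝ} : IsLocalMax F u ↔ IsLocalMin (fun x => -F x) u := by
  constructor
  · intro h; exact h.neg
  · intro h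
    have := h.neg
    simpa using this

/-- the classification for a positive function -/
lemma cls_pos (k : ℕ) (g : ℕ → ℝ → ℝ) (u : ℝ) (hd : ∀ i x, HasDerivAt (g i) (g (i + 1) x) x)
    (h0 : ∀ i < k, g (1 + i) u = 0) (h : g (1 + k) u ≠ 0) :
    (Odd k ∧ IsLocalMin (g 0) u ∧ ¬ IsLocalMax (g 0) u) ∨
    (Odd k ∧ IsLocalMax (g 0) u ∧ ¬ IsLocalMin (g 0) u) ∨
    (Even k ∧ ¬ IsLocalMin (g 0) u ∧ ¬ IsLocalMax (g 0) u) := by
  have key : ∀ g : ℕ → ℝ → ℝ, (∀ i x, HasDerivAt (g i) (g (i + 1) x) x) →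
      (∀ i < k, g (1 + i) u = 0) → 0 < g (1 + k) u →
      (Odd k ∧ IsLocalMin (g 0) u ∧ ¬ IsLocalMax (g 0) u) ∨
      (Even k ∧ ¬ IsLocalMin (g 0) u ∧ ¬ IsLocalMax (g 0) u) := by
    intro g hd h0 h
    obtain ⟨δ, hδ, h1, h2⟩ := cmp k g u hd h0 h
    have hmx : ¬ IsLocalMax (g 0) u := by
      rw [max_neg]
      refine not_min hδ (Or.inl fun x h3 h4 => ?_)
      have := h1 x h3 h4
      linarith
    rcases Nat.even_or_odd k with he | ho
    · right
      refine ⟨he, not_min hδ (Or.inr fun x h3 h4 => ?_), hmx⟩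
      have h5 := h2 x h3 h4
      rw [pow_succ, he.neg_one_pow] at h5
      linarith
    · left
      refine ⟨ho, is_min hδ h1 (fun x h3 h4 => ?_), hmx⟩
      have h5 := h2 x h3 h4
      rw [pow_succ, ho.neg_one_pow] at h5
      linarith
  rcases lt_or_gt_of_ne h with hn | hp
  · have h1 := key (fun i x => -g i x) (fun i x => (hd i x).neg) (fun i hi => by rw [h0 i hi, neg_zero])
      (by linarith)
    rcases h1 with ⟨ho, h2, h3⟩ | ⟨he, h2, h3⟩
    · right; left
      refine ⟨ho, max_neg.2 h2, fun h4 => h3 ?_⟩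
      exact h4.neg
    · right; right
      exact ⟨he, fun h4 => h3 h4.neg, fun h4 => h2 (max_neg.1 h4)⟩
  · rcases key g hd h0 hp with h1 | h1
    · exact Or.inl h1
    · exact Or.inr (Or.inr h1)

/-- the classification for the absolute value -/
lemma cls (k : ℕ) (g : ℕ → ℝ → ℝ) (u : ℝ) (hd : ∀ i x, HasDerivAt (g i) (g (i + 1) x) x)
    (hu : g 0 u ≠ 0) (h0 : ∀ i < k, g (1 + i) u = 0) (h : g (1 + k) u ≠ 0) :
    (Odd k ∧ IsLocalMin (fun x => |g 0 x|) u ∧ ¬ IsLocalMax (fun x => |g 0 x|) u) ∨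
    (Odd k ∧ IsLocalMax (fun x => |g 0 x|) u ∧ ¬ IsLocalMin (fun x => |g 0 x|) u) ∨
    (Even k ∧ ¬ IsLocalMin (fun x => |g 0 x|) u ∧ ¬ IsLocalMax (fun x => |g 0 x|) u) := by
  have hc : ContinuousAt (g 0) u := (hd 0 u).continuousAt
  obtain ⟨s, hs, hev⟩ : ∃ s : ℝ, s ≠ 0 ∧ (fun x => |g 0 x|) =ᶠ[𝓝 u] fun x => s * g 0 x := by
    rcases lt_or_gt_of_ne hu with hn | hp
    · refine ⟨-1, by norm_num, ?_⟩
      filter_upwards [hc.eventually (gt_mem_nhds hn)] with x hx
      rw [abs_of_neg hx]; ring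
    · refine ⟨1, by norm_num, ?_⟩
      filter_upwards [hc.eventually (lt_mem_nhds hp)] with x hx
      rw [abs_of_pos hx]; ring
  have e1 : IsLocalMin (fun x => |g 0 x|) u ↔ IsLocalMin (fun x => s * g 0 x) u := by
    constructor
    · intro h; exact h.congr hev
    · intro h; exact h.congr hev.symm
  have e2 : IsLocalMax (fun x => |g 0 x|) u ↔ IsLocalMax (fun x => s * g 0 x) u := by
    constructor
    · intro h; exact h.congr hev
    · intro h; exact h.congr hev.symm
  rw [e1, e2]
  exact cls_pos k (fun i x => s * g i x) u (fun i x => (hd i x).const_mul s)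
    (fun i hi => by rw [h0 i hi, mul_zero]) (mul_ne_zero hs h)

/-- between two local minima of a continuous function there is a local maximum -/
lemma max_between {F : ℝ → ℝ} (hF : Continuous F) {a b : ℝ} (hab : a < b) (ha : IsLocalMin F a)
    (hb : IsLocalMin F b) : ∃ c, a < c ∧ c < b ∧ IsLocalMax F c := by
  obtain ⟨c, hc, hmax⟩ := isCompact_Icc.exists_isMaxOn (nonempty_Icc.2 hab.le) (hF.continuousOn (s := Icc a b))
  have inner : ∀ z, a < z → z < b → (∀ y ∈ Icc a b, F y ≤ F z) → IsLocalMax F z := by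
    intro z h1 h2 h3
    filter_upwards [Icc_mem_nhds h1 h2] with y hy
    exact h3 y hy
  rcases eq_or_lt_of_le hc.1 with h | h
  · subst h
    have h1 : ∀ᶠ x in 𝓝 a, F a ≤ F x := ha
    rw [Metric.eventually_nhds_iff] at h1
    obtain ⟨ε, hε, h2⟩ := h1
    have hm : 0 < min ε (b - a) := lt_min hε (by linarith)
    refine ⟨a + min ε (b - a) / 2, by linarith, ?_, ?_⟩
    · have := min_le_right ε (b - a); linarith
    · refine inner _ (by linarith) (by have := min_le_right ε (b - a); linarith) fun y hy => ?_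
      refine (hmax hy).trans (h2 ?_)
      rw [Real.dist_eq, add_sub_cancel_left, abs_of_pos (by linarith)]
      have := min_le_left ε (b - a); linarith
  · rcases eq_or_lt_of_le hc.2 with h' | h'
    · subst h'
      have h1 : ∀ᶠ x in 𝓝 c, F c ≤ F x := hb
      rw [Metric.eventually_nhds_iff] at h1
      obtain ⟨ε, hε, h2⟩ := h1
      have hm : 0 < min ε (c - a) := lt_min hε (by linarith)
      refine ⟨c - min ε (c - a) / 2, ?_, by linarith, ?_⟩
      · have := min_le_right ε (c - a); linarith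
      · refine inner _ (by have := min_le_right ε (c - a); linarith) (by linarith) fun y hy => ?_
        refine (hmax hy).trans (h2 ?_)
        rw [Real.dist_eq, show c - min ε (c - a) / 2 - c = -(min ε (c - a) / 2) by ring, abs_neg,
          abs_of_pos (by linarith)]
        have := min_le_left ε (c - a); linarith
    · exact ⟨c, h, h', inner c h h' fun y hy => hmax hy⟩

lemma min_between' {F : ℝ → ℝ} (hF : Continuous F) {a b : ℝ} (hab : a < b) (ha : IsLocalMax F a)
    (hb : IsLocalMax F b) : ∃ c, a < c ∧ c < b ∧ IsLocalMin F c := by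
  obtain ⟨c, h1, h2, h3⟩ := max_between hF.neg hab ha.neg hb.neg
  refine ⟨c, h1, h2, ?_⟩
  have := h3.neg
  simpa using this

end

end Pool.Agent.Zk2.FP
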